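import Mathlib

/-!
# Squad PRS: jets of order two in two variables, node conditions, vector fields

`J` indexes the jet variables: `(0, l)` is the `l`-th derivative of `x`, `(1, l)` the one of `y`.
`Par N` indexes the parameters: `(0, i)` is the point `a i` of the `x`-line, `(1, j)` is the point
`b j` of the `y`-line.  The ring `S N` is the polynomial ring over `ℚ` in all these variables.
-/

set_option autoImplicit false

namespace Pool.Agent.PRS

open MvPolynomial

abbrev J := Fin 2 × Fin 3

abbrev Par (N : ℕ) := Fin 2 × Fin N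

abbrev S (N : ℕ) := MvPolynomial (J ⊕ Par N) ℚ

variable {N : ℕ}

/-- the jet variable: `jv c l` is the `l`-th derivative of the coordinate `c`; in the target of the
node substitution `jv 0 l` is the `l`-th derivative of `u`, `jv 1 l` the one of `v` -/
noncomputable def jv (N : ℕ) (c : Fin 2) (l : Fin 3) : S N := X (Sum.inl (c, l))

/-- the parameter -/
noncomputable def pa (c : Fin 2) (i : Fin N) : S N := X (Sum.inr (c, i))

/-- the node substitution at the node `(a i, b j)`: `x = a i + u`, `y = b j + u v` -/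
noncomputable def nodeFun (i j : Fin N) : J ⊕ Par N → S N :=
  Sum.elim (fun q => (![![pa 0 i + jv N 0 0, jv N 0 1, jv N 0 2],
      ![pa 1 j + jv N 0 0 * jv N 1 0, jv N 0 1 * jv N 1 0 + jv N 0 0 * jv N 1 1,
        jv N 0 2 * jv N 1 0 + 2 * (jv N 0 1 * jv N 1 1) + jv N 0 0 * jv N 1 2]] q.1) q.2)
    (fun q => X (Sum.inr q))

noncomputable def node (i j : Fin N) : S N →ₐ[ℚ] S N := aeval (nodeFun i j)

/-- `Deg w n P`: all monomials of `P` have `w`-weight at most `n` -/
def Deg {V : Type*} {R : Type*} [CommSemiring R] (w : V → ℕ) (n : ℕ) (P : MvPolynomial V R) : Prop :=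
  ∀ s ∈ P.support, s.sum (fun v e => e * w v) ≤ n

/-- the degree in the jets of the coordinate `c` -/
def dw (N : ℕ) (c : Fin 2) : J ⊕ Par N → ℕ := Sum.elim (fun q => if q.1 = c then 1 else 0) (fun _ => 0)

/-- the number of derivatives -/
def ww (N : ℕ) : J ⊕ Par N → ℕ := Sum.elim (fun q => (q.2 : ℕ)) (fun _ => 0)

/-- admissible polynomials: order `2 m` at all the nodes, degree at most `d` in each coordinate and
at most `m` derivatives -/
structure Adm (m d : ℕ) (P : S N) : Prop where
  node : ∀ i j, jv N 0 0 ^ (2 * m) ∣ node i j P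
  deg : ∀ c, Deg (dw N c) d P
  wt : Deg (ww N) m P

/-- the vector field `(x - a i) ^ 3 ∂ / ∂ (a i)` (or the same with `y, b`) -/
noncomputable def A (c : Fin 2) (i : Fin N) : Derivation ℚ (S N) (S N) :=
  mkDerivation ℚ (fun v => if v = Sum.inr (c, i) then (jv N c 0 - pa c i) ^ 3 else 0)

/-- translations -/
noncomputable def T0 (N : ℕ) (c : Fin 2) : Derivation ℚ (S N) (S N) :=
  mkDerivation ℚ (Sum.elim (fun q => if q = (c, 0) then 1 else 0)
    (fun q => if q.1 = c then 1 else 0))

/-- dilations -/
noncomputable def T1 (N : ℕ) (c : Fin 2) : Derivation ℚ (S N) (S N) :=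
  mkDerivation ℚ (Sum.elim (fun q => if q.1 = c then jv N q.1 q.2 else 0)
    (fun q => if q.1 = c then pa q.1 q.2 else 0))

/-- the third vector field of `PGL 2` -/
noncomputable def T2 (N : ℕ) (c : Fin 2) : Derivation ℚ (S N) (S N) :=
  mkDerivation ℚ (Sum.elim (fun q => if q.1 = c then
      ![jv N c 0 ^ 2, 2 * (jv N c 0 * jv N c 1),
        2 * jv N c 1 ^ 2 + 2 * (jv N c 0 * jv N c 2)] q.2 else 0)
    (fun q => if q.1 = c then pa q.1 q.2 ^ 2 else 0))

end Pool.Agent.PRS
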