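import Mathlib
import Pool.Agent.Helper97_PGH.Good
import Pool.Agent.Helper1_PRS.Defs

/-!
# Squad PRS: statements
-/

set_option autoImplicit false

universe u v

namespace Pool.Agent.PRS

open MvPolynomial PGH

/-! ## Part 1: algebra (Mathlib only) -/

/-- CLA: transfer of a vector field through a node substitution -/
def ClaStmt : Prop :=
  ∀ (N : ℕ) (i j : Fin N) (δ θ : Derivation ℚ (S N) (S N)),
    (∀ v, node i j (δ (X v)) = θ (node i j (X v))) → (∀ P, node i j (δ P) = θ (node i j P)) ∧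
    (jv N 0 0 ∣ θ (jv N 0 0) → ∀ (ν : ℕ) (P : S N), jv N 0 0 ^ ν ∣ node i j P →
      jv N 0 0 ^ ν ∣ node i j (δ P))

/-- CLX: the vector fields of the `x`-line keep the order at all nodes -/
def ClxStmt : Prop :=
  ∀ (N ν : ℕ) (i j : Fin N) (P : S N), jv N 0 0 ^ ν ∣ node i j P →
    (∀ i', jv N 0 0 ^ ν ∣ node i j (A 0 i' P)) ∧ jv N 0 0 ^ ν ∣ node i j (T0 N 0 P) ∧
    jv N 0 0 ^ ν ∣ node i j (T1 N 0 P) ∧ jv N 0 0 ^ ν ∣ node i j (T2 N 0 P)

/-- CLY: the vector fields of the `y`-line keep the order at all nodes -/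
def ClyStmt : Prop :=
  ∀ (N ν : ℕ) (i j : Fin N) (P : S N), jv N 0 0 ^ ν ∣ node i j P →
    (∀ i', jv N 0 0 ^ ν ∣ node i j (A 1 i' P)) ∧ jv N 0 0 ^ ν ∣ node i j (T0 N 1 P) ∧
    jv N 0 0 ^ ν ∣ node i j (T1 N 1 P) ∧ jv N 0 0 ^ ν ∣ node i j (T2 N 1 P)

/-- DGR: a derivation which raises the weight of each variable by at most `e` raises the weight by
at most `e` -/
def DgrStmt : Prop :=
  ∀ {V : Type} [DecidableEq V] (w : V → ℕ) (δ : Derivation ℚ (MvPolynomial V ℚ) (MvPolynomial V ℚ))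
    (e : ℕ), (∀ v, Deg w (w v + e) (δ (X v))) → ∀ (n : ℕ) (P : MvPolynomial V ℚ), Deg w n P →
    Deg w (n + e) (δ P)

/-- CLO: closure of the admissible polynomials under the vector fields -/
def CloStmt : Prop :=
  ∀ (N m d : ℕ) (P : S N), Adm m d P →
    (∀ c i, Adm m (d + 3) (A c i P)) ∧ ∀ c, Adm m (d + 3) (T0 N c P) ∧
      Adm m (d + 3) (T1 N c P) ∧ Adm m (d + 3) (T2 N c P)

/-- the Taylor expansion at the point `p` -/
noncomputable def taylor {V E : Type*} [Field E] [CharZero E] (p : V → E) :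
    MvPolynomial V ℚ →ₐ[ℚ] MvPolynomial V E :=
  aeval (fun v => C (p v) + X v)

/-- SPN: if a filtered set of polynomials is stable under vector fields which span the tangent space
at `p`, and vanishes at `p`, then it vanishes to high order at `p` -/
def SpnStmt : Prop :=
  ∀ {V K : Type} [Fintype V] [DecidableEq V] {E : Type u} [Field E] [CharZero E] (p : V → E)
    (𝒱 : ℕ → Set (MvPolynomial V ℚ)) (δ : K → Derivation ℚ (MvPolynomial V ℚ) (MvPolynomial V ℚ))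
    (Dm : ℕ),
    (∀ k e Q, Q ∈ 𝒱 e → δ k Q ∈ 𝒱 (e + 3)) →
    (∀ e Q, e ≤ Dm → Q ∈ 𝒱 e → aeval p Q = 0) →
    (∀ v, ∃ l : K →₀ E, ∀ w, l.sum (fun k c => c * aeval p (δ k (X w))) = if w = v then 1 else 0) →
    ∀ n e Q, e + 3 * n ≤ Dm → Q ∈ 𝒱 e →
      ∀ s : V →₀ ℕ, s.degree ≤ n → (taylor p Q).coeff s = 0

/-- NDS: the monomials which occur after the node substitution in the building blocks -/
noncomputable def ff (N : ℕ) (c : Fin 2) : S N := ∏ i : Fin N, (jv N c 0 - pa c i)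

/-- exponents `(i1, i2, j1, j2)` of a monomial with exactly `m` derivatives -/
def mons (m : ℕ) : Finset (ℕ × ℕ × ℕ × ℕ) :=
  ((Finset.range (m + 1)) ×ˢ (Finset.range (m + 1)) ×ˢ (Finset.range (m + 1)) ×ˢ
    (Finset.range (m + 1))).filter (fun q => q.1 + 2 * q.2.1 + q.2.2.1 + 2 * q.2.2.2 = m)

/-- the building block attached to `q = (i1, i2, j1, j2)` and to the exponents `(e, f)` of `x, y` -/
noncomputable def blk (N m : ℕ) (q : ℕ × ℕ × ℕ × ℕ) (e f : ℕ) : S N :=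
  jv N 0 0 ^ e * jv N 1 0 ^ f * (jv N 0 1 ^ q.1 * jv N 0 2 ^ q.2.1 * ff N 0 ^ (m - q.1 - q.2.1)) *
    (jv N 1 1 ^ q.2.2.1 * jv N 1 2 ^ q.2.2.2 * ff N 1 ^ (m - q.2.2.1 - q.2.2.2))

/-- NDS: in `node i j (blk N m q e f)` only the monomials
`u ^ (2 m + L - I - I') v ^ (m - K - K' + B) u' ^ I u'' ^ I' v' ^ K v'' ^ K'` (times parameters)
with `(I, I', K, K') ∈ mons m` and `B ≤ L` occur. -/
def NdsStmt : Prop :=
  ∀ (N m : ℕ) (i j : Fin N) (q : ℕ × ℕ × ℕ × ℕ) (e f : ℕ), q ∈ mons m →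
    ∀ s ∈ (node i j (blk N m q e f)).support, ∃ r ∈ mons m, ∃ L B : ℕ, B ≤ L ∧
      s (Sum.inl (0, 1)) = r.1 ∧ s (Sum.inl (0, 2)) = r.2.1 ∧ s (Sum.inl (1, 1)) = r.2.2.1 ∧
      s (Sum.inl (1, 2)) = r.2.2.2 ∧ s (Sum.inl (0, 0)) + r.1 + r.2.1 = 2 * m + L ∧
      s (Sum.inl (1, 0)) + r.2.2.1 + r.2.2.2 = m + B

/-- NUM: the numerical inequality, with `m = 21` -/
def NumStmt : Prop :=
  ∃ N₀ : ℕ, 13 ≤ N₀ ∧ ∀ N ≥ N₀,
    N ^ 2 * ∑ r ∈ mons 21, ∑ L ∈ Finset.range (r.1 + r.2.1), (L + 1) <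
      ∑ q ∈ (mons 21).filter (fun q => 0 < q.1 + q.2.1 ∧ 0 < q.2.2.1 + q.2.2.2),
        (N * (q.1 + q.2.1) - 13 * 21 + 1) * (N * (q.2.2.1 + q.2.2.2) - 13 * 21 + 1)

/-- EXI: existence of an admissible polynomial of small degree -/
def ExiStmt : Prop :=
  ∃ m N₀ : ℕ, 1 ≤ m ∧ 13 ≤ N₀ ∧ ∀ N ≥ N₀, ∃ P : S N, P ≠ 0 ∧ Adm m ((N - 12) * m) P

/-- JET: the consequence of the existence and of the vector fields -/
def JetStmt : Prop :=
  ∃ m N₀ : ℕ, 1 ≤ m ∧ 13 ≤ N₀ ∧ ∀ N ≥ N₀, ∃ F : MvPolynomial (Fin 2 ⊕ Par N) ℚ, F ≠ 0 ∧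
    ∀ {E : Type u} [Field E] [CharZero E] (z : J → E) (a : Par N → E),
      (∀ c i, z (c, 0) ≠ a (c, i)) → (∀ c, z (c, 1) ≠ 0) →
      (∀ Q : S N, Adm m ((N - 9) * m) Q → aeval (Sum.elim z a) Q = 0) →
      aeval (Sum.elim (fun c => z (c, 0)) a) F = 0

/-! ## Part 2: places -/

/-- the jet of a pair of elements of a differential field -/
def jet {E : Type*} [Field E] (D : Derivation ℤ E E) (x : Fin 2 → E) : J → E :=
  fun q => (⇑D)^[(q.2 : ℕ)] (x q.1)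

/-- EVP: lower bound for the order of an admissible polynomial at any place; `ρ c` is a bound for
the pole of `x c` -/
def EvpStmt : Prop :=
  ∀ {L E : Type u} [Field L] [Field E] [CharZero L] [CharZero E] [Algebra L E] (P : Place L E)
    (D : Derivation ℤ E E) (cp : ℕ), DGe P D (-(cp : ℤ)) → ∀ (N m d : ℕ) (a : Par N → L)
    (x : Fin 2 → E) (ρ : Fin 2 → ℕ), (∀ c, P.Ge (-(ρ c : ℤ)) (x c)) → ∀ Q : S N, Adm m d Q →
    P.Ge (-(((d + m) * (ρ 0 + ρ 1) + 2 * m * cp : ℕ) : ℤ))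
      (aeval (Sum.elim (jet D x) (fun q => algebraMap L E (a q))) Q)

/-- EVN: order at the good nodes -/
def EvnStmt : Prop :=
  ∀ {L E : Type u} [Field L] [Field E] [CharZero L] [CharZero E] [Algebra L E] (P : Place L E)
    (D : Derivation ℤ E E), DGe P D 0 → ∀ (N m d : ℕ) (a : Par N → L)
    (x : Fin 2 → E), (∀ q, D (algebraMap L E (a q)) = 0) → ∀ i j : Fin N,
    P.ord (x 0 - algebraMap L E (a (0, i))) = 1 → P.Ge 1 (x 1 - algebraMap L E (a (1, j))) →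
    ∀ Q : S N, Adm m d Q →
    P.Ge (2 * m) (aeval (Sum.elim (jet D x) (fun q => algebraMap L E (a q))) Q)

/-- the relations: for each `r`, the product of the powers of the `x c - a (c, i)` is `b r` times an
`M r`-th power, and each `a (c, i)` is a branch point of one of the relations -/
def Rels {E : Type*} [Field E] (N R : ℕ) (x : Fin 2 → E) (a : Par N → E) (α : Fin R → Par N → ℤ)
    (M : Fin R → ℕ) (b z : Fin R → E) : Prop :=
  (∀ r, b r ≠ 0) ∧ (∀ r, ∏ q : Par N, (x q.1 - a q) ^ α r q = b r * z r ^ M r) ∧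
    ∀ q, ∃ r, ¬ (M r : ℤ) ∣ α r q

/-- PAT: at a place where the `b r` are units, where `x 0` takes one of the values `a (0, i)` with
multiplicity one and where `x 1` is regular, `x 1` takes one of the values `a (1, j)` (and the same
with the coordinates exchanged) -/
def PatStmt : Prop :=
  ∀ {L E : Type u} [Field L] [Field E] [Algebra L E] (P : Place L E) (N R : ℕ) (x : Fin 2 → E)
    (a : Par N → L) (α : Fin R → Par N → ℤ) (M : Fin R → ℕ) (b z : Fin R → E),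
    (∀ c, Function.Injective (fun i => a (c, i))) →
    (∀ q, x q.1 ≠ algebraMap L E (a q)) →
    Rels N R x (fun q => algebraMap L E (a q)) α M b z → (∀ r, P.ord (b r) = 0) →
    ∀ (c c' : Fin 2) (i : Fin N), c ≠ c' → P.ord (x c - algebraMap L E (a (c, i))) = 1 →
      P.Ge 0 (x c') → ∃ j, P.Ge 1 (x c' - algebraMap L E (a (c', j)))

/-- RAM: the ramification estimate.  `st` is the set of static places. -/
def RamStmt : Prop :=
  ∀ {L E : Type u} [Field L] [Field E] [Algebra L E] [IsAlgClosed L] [CharZero L] [FF L E]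
    (D : Derivation ℤ E E) (cp : Place L E → ℕ) (sc : Finset (Place L E)),
    (∀ P ∉ sc, cp P = 0) → (∀ P, DGe P D (-(cp P : ℤ))) →
    ∀ (N : ℕ) (a : Fin N → L) (x : E), Function.Injective a →
    (∀ i, D (algebraMap L E (a i)) = 0) → D x ≠ 0 → ∀ (st : Set (Place L E)),
    (∀ P ∈ st, cp P = 0 ∧ ∀ y, P.Ge 1 y → P.Ge 1 (D y)) →
    ∀ s : Finset (Place L E),
      ∑ P ∈ s, ∑ i, (by classical exact (if P ∈ st then max 0 (P.ord (x - algebraMap L E (a i)))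
        else max 0 (P.ord (x - algebraMap L E (a i)) - 1))) ≤
      2 * (ht L x : ℤ) + ∑ P ∈ sc, (cp P : ℤ)

/-- HGT: bounded heights for pairs -/
def HgtStmt : Prop :=
  ∀ {L E : Type u} [Field L] [Field E] [Algebra L E] [IsAlgClosed L] [CharZero L] [CharZero E]
    [FF L E] (D : Derivation ℤ E E), (∀ z, D z = 0 → ∃ c : L, algebraMap L E c = z) →
    ∀ (cp : Place L E → ℕ) (sc : Finset (Place L E)), (∀ P ∉ sc, cp P = 0) →
    (∀ P, DGe P D (-(cp P : ℤ))) →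
    ∀ (N R m : ℕ) (x : Fin 2 → E) (a : Par N → L) (α : Fin R → Par N → ℤ) (M : Fin R → ℕ)
      (b z : Fin R → E), 13 ≤ N → 1 ≤ m →
    (∀ c, Function.Injective (fun i => a (c, i))) → (∀ q, D (algebraMap L E (a q)) = 0) →
    (∀ q, x q.1 ≠ algebraMap L E (a q)) →
    Rels N R x (fun q => algebraMap L E (a q)) α M b z →
    ((∀ c, D (x c) ≠ 0) → ∃ Q : S N, Adm m ((N - 9) * m) Q ∧
      aeval (Sum.elim (jet D x) (fun q => algebraMap L E (a q))) Q ≠ 0) →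
    ∀ c, ht L (x c) ≤ 10 * ∑ P ∈ sc, cp P + 10 * ∑ r, 2 * ht L (b r)

/-- RIG: rigidity for pairs -/
def RigStmt : Prop :=
  ∀ {k L E : Type u} [Field k] [IsAlgClosed k] [Field L] [Field E] [Algebra k L] [Algebra L E]
    [Algebra k E] [IsScalarTower k L E] [IsAlgClosed L] [CharZero L] [CharZero E]
    [FF L E] (D : Derivation ℤ E E), PresL L D → (∀ c : k, D (algebraMap k E c) = 0) →
    (∀ P : Place L E, DGe P D 0) → ∀ P₀ : Place L E, (∀ y, P₀.Ge 1 y → P₀.Ge 1 (D y)) →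
    ∀ (N R m : ℕ) (x : Fin 2 → E) (a : Par N → k) (α : Fin R → Par N → ℤ) (M : Fin R → ℕ)
      (b z : Fin R → E), 13 ≤ N → 1 ≤ m →
    (∀ c, Function.Injective (fun i => a (c, i))) →
    (∀ q, x q.1 ≠ algebraMap k E (a q)) →
    Rels N R x (fun q => algebraMap k E (a q)) α M b z → (∀ r, D (b r) = 0) →
    ((∀ c, D (x c) ≠ 0) → ∃ Q : S N, Adm m ((N - 9) * m) Q ∧
      aeval (Sum.elim (jet D x) (fun q => algebraMap k E (a q))) Q ≠ 0) →
    (∀ c, ∃ κ : k, P₀.Ge 1 (x c - algebraMap k E κ)) →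
    ∀ c, D (x c) = 0

/-! ## Part 3: the step -/

/-- A pair step from the subfield `F` to the subfield `F'` of `M`, relative to the field of
constants `K`. -/
structure PairStep (N₀ : ℕ) (Φ : ∀ N, MvPolynomial (Par N) ℚ) {M : Type*} [Field M] [CharZero M]
    (K F F' : Subfield M) : Prop where
  le : F ≤ F'
  step : ∃ (N R : ℕ) (x : Fin 2 → M) (a : Par N → M) (α : Fin R → Par N → ℤ) (e : Fin R → ℕ)
    (b z : Fin R → M), N₀ ≤ N ∧ (∀ q, a q ∈ K) ∧ (∀ c, Function.Injective (fun i => a (c, i))) ∧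
    aeval a (Φ N) ≠ 0 ∧ (∀ r, b r ∈ F) ∧ Rels N R x a α e b z ∧
    (∀ p : MvPolynomial (Fin 2) K, eval₂ K.subtype x p = 0 → p = 0) ∧
    ∀ w ∈ F', IsAlgebraic (Subfield.closure ((F : Set M) ∪ Set.range x)) w

/-- GOO: pair steps preserve good elements -/
def GooStmt : Prop :=
  ∃ (N₀ : ℕ) (Φ : ∀ N, MvPolynomial (Par N) ℚ), (∀ N ≥ N₀, Φ N ≠ 0) ∧
  ∀ {k : Type u} {M : Type v} [Field k] [Field M] [Algebra k M] [IsAlgClosed k] [CharZero k]
    [CharZero M] (F₀ : Set M) (F F' : Subfield M),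
    PairStep N₀ Φ (algebraMap k M).fieldRange F F' → (∀ w ∈ F, GoodEl k F₀ w) →
    ∀ w ∈ F', GoodEl k F₀ w

end Pool.Agent.PRS
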