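import Mathlib
import Pool.Agent.Helper1_PRS.Stmts

set_option autoImplicit false

namespace Pool.Agent.PRS.H1

open MvPolynomial

theorem cla : ClaStmt := by
  intro N i j δ θ h
  have key : ∀ P, node i j (δ P) = θ (node i j P) := by
    intro P
    induction P using MvPolynomial.induction_on with
    | C a =>
      have h1 : δ (C a) = 0 := by
        have := δ.map_algebraMap a
        simpa using this
      have h2 : θ (node i j (C a)) = 0 := by
        have := θ.map_algebraMap a
        have h3 : node i j (C a) = algebraMap ℚ (S N) a := by
          unfold node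
          exact (aeval (nodeFun i j)).commutes a
        rw [h3, this]
      rw [h1, h2, map_zero]
    | add p q hp hq => rw [map_add, map_add, map_add, map_add, hp, hq]
    | mul_X p v hp =>
      rw [Derivation.leibniz, map_add, smul_eq_mul, smul_eq_mul, map_mul, map_mul, map_mul,
        Derivation.leibniz, smul_eq_mul, smul_eq_mul, h v, hp]
  refine ⟨key, ?_⟩
  rintro ⟨w, hw⟩ ν P ⟨q, hq⟩
  rw [key, hq, Derivation.leibniz, smul_eq_mul, smul_eq_mul, Derivation.leibniz_pow, smul_eq_mul,
    hw]
  refine dvd_add (dvd_mul_right _ _) ?_
  cases ν with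
  | zero => simp
  | succ n =>
    refine ⟨(n + 1) * (q * w), ?_⟩
    rw [Nat.add_sub_cancel, pow_succ]
    push_cast
    ring

end Pool.Agent.PRS.H1
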