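import Pool.Agent.Helper1_PRS.Stmts

/-!
# Module NUM of squad PRS: a numerical inequality (proof of helper26, with smaller ranges)
-/

set_option autoImplicit false

namespace Pool.Agent.PRS.H1N

open Finset

theorem sum_mons (f : ℕ × ℕ × ℕ × ℕ → ℕ) : ∑ q ∈ mons 21, f q =
    ∑ a ∈ range 22, ∑ b ∈ range 11, ∑ d ∈ range 11,
      if a + 2 * b + 2 * d ≤ 21 then f (a, b, 21 - (a + 2 * b + 2 * d), d) else 0 := by
  unfold mons
  rw [Finset.sum_filter, Finset.sum_product]
  refine Finset.sum_congr rfl fun a _ => ?_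
  rw [Finset.sum_product]
  have hsub : range 11 ⊆ range (21 + 1) := Finset.range_subset_range.2 (by norm_num)
  rw [← Finset.sum_subset hsub]
  · refine Finset.sum_congr rfl fun b _ => ?_
    rw [Finset.sum_product_right, ← Finset.sum_subset hsub]
    · refine Finset.sum_congr rfl fun d _ => ?_
      by_cases h : a + 2 * b + 2 * d ≤ 21
      · rw [if_pos h, Finset.sum_eq_single (21 - (a + 2 * b + 2 * d))]
        · rw [if_pos]
          show a + 2 * b + (21 - (a + 2 * b + 2 * d)) + 2 * d = 21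
          omega
        · intro c _ hc
          rw [if_neg]
          intro h2
          apply hc
          have h3 : a + 2 * b + c + 2 * d = 21 := h2
          omega
        · intro h2
          exfalso
          apply h2
          rw [Finset.mem_range]
          omega
      · rw [if_neg h]
        refine Finset.sum_eq_zero fun c _ => ?_
        rw [if_neg]
        intro h2
        have h3 : a + 2 * b + c + 2 * d = 21 := h2
        omega
    · intro d _ hd
      refine Finset.sum_eq_zero fun c _ => ?_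
      rw [if_neg]
      intro h2
      have h3 : a + 2 * b + c + 2 * d = 21 := h2
      have h4 : ¬ d < 11 := fun h => hd (Finset.mem_range.2 h)
      omega
  · intro b _ hb
    refine Finset.sum_eq_zero fun p _ => ?_
    rw [if_neg]
    intro h2
    have h3 : a + 2 * b + p.1 + 2 * p.2 = 21 := h2
    have h4 : ¬ b < 11 := fun h => hb (Finset.mem_range.2 h)
    omega

theorem arith (x y : ℕ) (hx : 273 ≤ x) (hy : 273 ≤ y) :
    (x - 13 * 21 + 1) * (y - 13 * 21 + 1) + (272 * x + 272 * y) = x * y + 272 ^ 2 * 1 := by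
  have e : 13 * 21 = 273 := by norm_num
  rw [e]
  zify [hx, hy]
  ring

theorem v1 : ∑ r ∈ mons 21, ∑ L ∈ Finset.range (r.1 + r.2.1), (L + 1) = 26169 := by
  rw [sum_mons]
  decide +kernel

theorem v2 : ∑ q ∈ mons 21, (if 0 < q.1 + q.2.1 ∧ 0 < q.2.2.1 + q.2.2.2 then
    (q.1 + q.2.1) * (q.2.2.1 + q.2.2.2) else 0) = 27456 := by
  rw [sum_mons]
  decide +kernel

theorem v3 : ∑ q ∈ mons 21, (if 0 < q.1 + q.2.1 ∧ 0 < q.2.2.1 + q.2.2.2 then
    (q.1 + q.2.1) + (q.2.2.1 + q.2.2.2) else 0) = 8800 := by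
  rw [sum_mons]
  decide +kernel

theorem v4 : ∑ q ∈ mons 21, (if 0 < q.1 + q.2.1 ∧ 0 < q.2.2.1 + q.2.2.2 then
    1 else 0) = 550 := by
  rw [sum_mons]
  decide +kernel

/-- the comparison of the sums, for an arbitrary finite set of exponents -/
theorem comb (s : Finset (ℕ × ℕ × ℕ × ℕ)) (A B C : ℕ)
    (h2 : ∑ q ∈ s, (if 0 < q.1 + q.2.1 ∧ 0 < q.2.2.1 + q.2.2.2 then
      (q.1 + q.2.1) * (q.2.2.1 + q.2.2.2) else 0) = A)
    (h3 : ∑ q ∈ s, (if 0 < q.1 + q.2.1 ∧ 0 < q.2.2.1 + q.2.2.2 then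
      (q.1 + q.2.1) + (q.2.2.1 + q.2.2.2) else 0) = B)
    (h4 : ∑ q ∈ s, (if 0 < q.1 + q.2.1 ∧ 0 < q.2.2.1 + q.2.2.2 then 1 else 0) = C)
    (N : ℕ) (hN : 1900 ≤ N) :
    ∑ q ∈ s.filter (fun q => 0 < q.1 + q.2.1 ∧ 0 < q.2.2.1 + q.2.2.2),
        (N * (q.1 + q.2.1) - 13 * 21 + 1) * (N * (q.2.2.1 + q.2.2.2) - 13 * 21 + 1)
      + 272 * N * B = N ^ 2 * A + 272 ^ 2 * C := by
  rw [← Finset.sum_filter] at h2 h3 h4
  rw [← h2, ← h3, ← h4, Finset.mul_sum, Finset.mul_sum, Finset.mul_sum,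
    ← Finset.sum_add_distrib, ← Finset.sum_add_distrib]
  refine Finset.sum_congr rfl fun q hq => ?_
  obtain ⟨-, hq1, hq2⟩ := Finset.mem_filter.1 hq
  generalize q.1 + q.2.1 = k at hq1 ⊢
  generalize q.2.2.1 + q.2.2.2 = l at hq2 ⊢
  have h0 : 273 ≤ N := le_trans (by norm_num) hN
  have h6 : 273 ≤ N * k := le_trans h0 (Nat.le_mul_of_pos_right N hq1)
  have h7 : 273 ≤ N * l := le_trans h0 (Nat.le_mul_of_pos_right N hq2)
  have h8 : N ^ 2 * (k * l) = (N * k) * (N * l) := by ring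
  have h9 : 272 * N * (k + l) = 272 * (N * k) + 272 * (N * l) := by ring
  rw [h8, h9]
  exact arith _ _ h6 h7

theorem fin (N T : ℕ) (hN : 1900 ≤ N) (h : T + 272 * N * 8800 = N ^ 2 * 27456 + 272 ^ 2 * 550) :
    N ^ 2 * 26169 < T := by
  have h6 : 1900 * N ≤ N ^ 2 := by nlinarith
  have h7 : T + 2393600 * N = N ^ 2 * 27456 + 40691200 := by
    rw [show 2393600 * N = 272 * N * 8800 by ring, h]
    norm_num
  omega

theorem num : NumStmt := by
  refine ⟨1900, by norm_num, fun N hN => ?_⟩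
  have h5 := comb (mons 21) _ _ _ v2 v3 v4 N hN
  rw [v1]
  exact fin N _ hN h5

end Pool.Agent.PRS.H1N
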