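import Pool.Agent.Helper1_PRS.Fin
import Pool.Agent.Helper1_PRS.ClaB
import Pool.Agent.Helper11_PRS.Evp
import Pool.Agent.Helper17_PRS.Rig
import Pool.Agent.Helper26_PRS.Clo
import Pool.Agent.Helper1_PRS.NumB
import Pool.Agent.Helper27_PRS.Exi
import Pool.Agent.Helper41_PRS.RAM
import Pool.Agent.Helper43_PRS.JET
import Pool.Agent.Helper43_PRS.NDS
import Pool.Agent.Helper47_PRS.Evn
import Pool.Agent.Helper47_PRS.Hgt
import Pool.Agent.Helper48_PRS.Pat
import Pool.Agent.Helper63_PRS.Cly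
import Pool.Agent.Helper64_PRS.Goo
import Pool.Agent.Helper65_PRS.Clx
import Pool.Agent.Helper67_PRS.Spn
import Pool.Agent.Helper90_PRS.Dgr

/-!
# Squad PRS: assembly
-/

set_option autoImplicit false

universe u v

namespace Pool.Agent.PRS

theorem jetAll : JetStmt.{u} :=
  H43.jet (H27.exi H43.nds H1N.num) (H26.clo (H65.clx H1.cla) (H63.cly H1.cla) H90.dgr) H67.spn

theorem gooAll : GooStmt.{u, v} :=
  H64.goo jetAll (H47H.hgt H11.evp H47.evn H48.pat H41.ram)
    (H17.rig H11.evp H47.evn H48.pat H41.ram)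

end Pool.Agent.PRS
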