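import Mathlib

/-!
# Pair steps: covers of a product of two lines with many branch fibres
-/

set_option autoImplicit false

namespace Pool.Agent.PRS

open MvPolynomial

/-- A pair step from the subfield `F` to the subfield `F'` of `M`, relative to `κ : k → M`: there
are elements `x 0`, `x 1` of `M`, algebraically independent over `k`, such that `F'` is algebraic
over the field generated by `F` and `x 0`, `x 1`, and `N ≥ N₀` distinct values `a (c, i)` in `k` for
each coordinate `c` with `Φ N (a) ≠ 0`, and relations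
`∏ (x c - a (c, i)) ^ α r (c, i) = b r * z r ^ e r` with `b r ≠ 0` in `F`, such that for each
`(c, i)` one of the exponents `α r (c, i)` is not divisible by `e r`. -/
structure Step (N₀ : ℕ) (Φ : ∀ N, MvPolynomial (Fin 2 × Fin N) ℚ) {k M : Type*} [Field k]
    [CharZero k] [Field M] (κ : k →+* M) (F F' : Subfield M) : Prop where
  le : F ≤ F'
  step : ∃ (N R : ℕ) (x : Fin 2 → M) (a : Fin 2 × Fin N → k) (α : Fin R → Fin 2 × Fin N → ℤ)
    (e : Fin R → ℕ) (b z : Fin R → M), N₀ ≤ N ∧ (∀ c, Function.Injective (fun i => a (c, i))) ∧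
    aeval a (Φ N) ≠ 0 ∧ (∀ r, b r ∈ F ∧ b r ≠ 0) ∧
    (∀ r, ∏ q : Fin 2 × Fin N, (x q.1 - κ (a q)) ^ α r q = b r * z r ^ e r) ∧
    (∀ q, ∃ r, ¬ (e r : ℤ) ∣ α r q) ∧
    (∀ p : MvPolynomial (Fin 2) k, eval₂ κ x p = 0 → p = 0) ∧
    ∀ w ∈ F', IsAlgebraic (Subfield.closure ((F : Set M) ∪ Set.range x)) w

end Pool.Agent.PRS
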