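import Mathlib
import Pool.Agent.Helper97_PGH.TowerDefs
import Pool.Agent.Helper97_PGH.Fin2
import Pool.Agent.Helper97_PGH.SchemeRel
import Pool.Agent.Helper1_PRS.Stmts
import Pool.Agent.Helper1_PRS.StepDef

/-!
# Squad PRS: the theorem about schemes
-/

open CategoryTheory AlgebraicGeometry PGH

universe u

set_option autoImplicit false

namespace Pool.Agent.PRS

theorem Step.pair {N₀ : ℕ} {Φ : ∀ N, MvPolynomial (Par N) ℚ} {k M : Type*} [Field k] [CharZero k]
    [Field M] [CharZero M] {κ : k →+* M} {F F' : Subfield M} (h : Step N₀ Φ κ F F') :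
    PairStep N₀ Φ κ.fieldRange F F' := by
  obtain ⟨hle, N, R, x, a, α, e, b, z, hN, ha, hΦ, hb, hrel, hbr, hind, halg⟩ := h
  refine ⟨hle, N, R, x, fun q => κ (a q), α, e, b, z, hN, fun q => ⟨a q, rfl⟩,
    fun c i j hij => ha c (κ.injective hij), ?_, fun r => (hb r).1,
    ⟨fun r => (hb r).2, hrel, hbr⟩, ?_, halg⟩
  · have h1 : MvPolynomial.aeval (fun q => κ (a q)) (Φ N) = κ (MvPolynomial.aeval a (Φ N)) :=
      (MvPolynomial.comp_aeval_apply a κ.toRatAlgHom (Φ N)).symm
    rw [h1]
    exact fun h0 => hΦ (κ.injective (h0.trans (map_zero κ).symm))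
  · intro p hp
    obtain ⟨p', rfl⟩ : ∃ p' : MvPolynomial (Fin 2) k,
        MvPolynomial.map κ.rangeRestrictField p' = p :=
      MvPolynomial.map_surjective _ κ.rangeRestrictField_bijective.2 p
    rw [MvPolynomial.eval₂_map] at hp
    rw [hind p' hp, map_zero]

/-- towers of pair steps from a subfield of good elements -/
theorem good_of_tower {k : Type u} {M : Type u} [Field k] [Field M] [Algebra k M] [IsAlgClosed k]
    [CharZero k] [CharZero M] {N₀ : ℕ} {Φ : ∀ N, MvPolynomial (Par N) ℚ}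
    (hG : ∀ (F₀ : Set M) (F F' : Subfield M),
      PairStep N₀ Φ (algebraMap k M).fieldRange F F' → (∀ w ∈ F, GoodEl k F₀ w) →
      ∀ w ∈ F', GoodEl k F₀ w)
    {F₀ : Set M} {F F' : Subfield M}
    (h : Relation.ReflTransGen (Step N₀ Φ (algebraMap k M)) F F')
    (hF : ∀ w ∈ F, GoodEl k F₀ w) : ∀ w ∈ F', GoodEl k F₀ w := by
  induction h with
  | refl => exact hF
  | tail _ hs ih => exact hG F₀ _ _ hs.pair ih

theorem fin_of_goo (hgoo : GooStmt.{u, u}) :
    ∃ (N₀ : ℕ) (Φ : ∀ N, MvPolynomial (Fin 2 × Fin N) ℚ), (∀ N ≥ N₀, Φ N ≠ 0) ∧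
      ∀ {k : Type u} [Field k] [IsAlgClosed k] [CharZero k] {X : Scheme.{u}}
        (f : X ⟶ Spec (.of k)) [IsIntegral X] [IsSeparated f]
        [LocallyOfFiniteType f] [QuasiCompact f],
      (Relation.ReflTransGen (Step N₀ Φ (constants k f)) (constants k f).fieldRange ⊤ →
        IsPGH k f) ∧
      ∀ {Y : Scheme.{u}} (q : Y ⟶ Spec (.of k)) [IsIntegral Y] (g : X ⟶ Y) [IsDominant g],
        g ≫ q = f → IsPGH k q →
        Relation.ReflTransGen (Step N₀ Φ (constants k f)) (pullbackField g).fieldRange ⊤ →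
        IsPGH k f := by
  obtain ⟨N₀, Φ, hΦ, hG⟩ := hgoo
  refine ⟨N₀, Φ, hΦ, ?_⟩
  intro k _ _ _ X f _ _ _ _
  let _ : Algebra k X.functionField := (constants k f).toAlgebra
  have : CharZero X.functionField :=
    charZero_of_injective_algebraMap (algebraMap k X.functionField).injective
  refine ⟨fun h => ?_, fun {Y} q _ g _ hgq hY h => ?_⟩
  · have hgood : ∀ a : X.functionField, GoodEl k (∅ : Set X.functionField) a := fun a =>
      good_of_tower (fun F₀ F F' => hG F₀ F F') h
        (by rintro _ ⟨c, rfl⟩; exact GoodEl.const _ c) a trivial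
    refine isPGH_of_fields k f X.functionField (RingEquiv.refl _) (fun c => rfl) ?_
    intro A hA
    obtain ⟨T, hT, hh⟩ := good_main hgood A hA
    refine ⟨T, hT, fun d hd hd0 hTR E _ _ _ P x => ?_⟩
    refine (hh d hd hd0 hTR E P x (fun _ => 0)).subset ?_
    intro φ hφ
    exact ⟨hφ, fun r hr => absurd hr.2 (Set.notMem_empty _)⟩
  · have hgood : ∀ a : X.functionField,
        GoodEl k (Set.range (fun b => RingEquiv.refl _ (pullbackField g b))) a := fun a =>
      good_of_tower (fun F₀ F F' => hG F₀ F F') h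
        (by rintro _ ⟨b, rfl⟩; exact GoodEl.base ⟨b, rfl⟩) a trivial
    exact isPGH_of_fields_rel k f q g hgq hY X.functionField (RingEquiv.refl _) (fun c => rfl)
      (good_main hgood)

end Pool.Agent.PRS
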